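import Pool.Agent.H2.NL.Basic

/-!
# Weights (WTS, board nil_modules)
-/

set_option autoImplicit false

open Matrix Pool.Agent.H2.NL Pool.Agent.H64.CC

namespace Pool.Agent.H7.NL

section

variable {K : Type} [Field K] {I : Type} [Fintype I] [DecidableEq I] (F : Form K I)

private theorem T_apply (p q a b : I) : F.T p q a b =
    (if a = p then (if b = F.st q then F.c q else 0) else 0) +
    (if a = q then (if b = F.st p then F.c p else 0) else 0) := rfl

/-- the weight of a letter -/
private def wt (p a : I) : K := (if a = p then 1 else 0) - (if a = F.st p then 1 else 0)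

private theorem T_diag (p : I) (hp : F.o p = true) (a b : I) :
    F.T p (F.st p) a b = if a = b then F.c (F.st p) * wt F p a else 0 := by
  have hc : F.c (F.st p) = -F.c p := by
    rw [F.c_st, hp, sg_true]
    ring
  have hne : p ≠ F.st p := (F.st_ne p).symm
  rw [T_apply, F.st_st]
  unfold wt
  by_cases h1 : a = p
  · subst h1
    rw [if_pos rfl, if_neg hne, if_pos rfl, if_neg hne, add_zero, sub_zero, mul_one]
    by_cases h2 : b = a
    · rw [if_pos h2, if_pos h2.symm]
    · rw [if_neg h2, if_neg (Ne.symm h2)]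
  · rw [if_neg h1, if_neg h1, zero_add, zero_sub]
    by_cases h3 : a = F.st p
    · rw [if_pos h3, if_pos h3]
      by_cases h2 : b = F.st p
      · rw [if_pos h2, if_pos (h3.trans h2.symm), hc]
        ring
      · rw [if_neg h2, if_neg fun h => h2 (h.symm.trans h3)]
    · rw [if_neg h3, if_neg h3]
      simp

private theorem D2_diag (p : I) (hp : F.o p = true) (x y : I × I) :
    D2 (F.T p (F.st p)) x y =
      if x = y then F.c (F.st p) * (wt F p x.1 + wt F p x.2) else 0 := by
  have h0 : D2 (F.T p (F.st p)) x y = F.T p (F.st p) x.1 y.1 * (if x.2 = y.2 then 1 else 0) +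
    (if x.1 = y.1 then 1 else 0) * F.T p (F.st p) x.2 y.2 := rfl
  rw [h0, T_diag F p hp, T_diag F p hp]
  obtain ⟨x1, x2⟩ := x
  obtain ⟨y1, y2⟩ := y
  by_cases h1 : x1 = y1
  · by_cases h2 : x2 = y2
    · subst h1 h2
      simp
      ring
    · simp [h1, h2]
  · simp [h1]

private theorem wcomm (p : I) (hp : F.o p = true) (g : Matrix (I × I) (I × I) K)
    (hg : g * D2 (F.T p (F.st p)) = D2 (F.T p (F.st p)) * g) (x y : I × I) (hxy : g x y ≠ 0) :
    wt F p x.1 + wt F p x.2 = wt F p y.1 + wt F p y.2 := by
  have h1 : (g * D2 (F.T p (F.st p))) x y = (D2 (F.T p (F.st p)) * g) x y := by rw [hg]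
  rw [Matrix.mul_apply, Matrix.mul_apply, Finset.sum_eq_single y, Finset.sum_eq_single x,
    D2_diag F p hp, D2_diag F p hp, if_pos rfl, if_pos rfl] at h1
  · have hc : F.c (F.st p) ≠ 0 := by
      rcases F.c_val (F.st p) with h | h <;> rw [h] <;> simp
    have h2 : F.c (F.st p) * g x y * (wt F p y.1 + wt F p y.2) =
        F.c (F.st p) * g x y * (wt F p x.1 + wt F p x.2) := by
      linear_combination h1
    exact (mul_left_cancel₀ (mul_ne_zero hc hxy) h2).symm
  · intro z _ hz
    rw [D2_diag F p hp, if_neg (Ne.symm hz), zero_mul]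
  · intro h
    exact absurd (Finset.mem_univ _) h
  · intro z _ hz
    rw [D2_diag F p hp, if_neg hz, mul_zero]
  · intro h
    exact absurd (Finset.mem_univ _) h

/-- the entries in the third part -/
private theorem T_col (p q a : I) :
    F.T p (F.st q) a q = if a = p then F.T p (F.st q) p q else 0 := by
  rw [T_apply, T_apply, F.st_st, if_pos rfl, if_pos rfl]
  by_cases h1 : a = p
  · rw [if_pos h1, if_pos h1, h1]
  · rw [if_neg h1, if_neg h1, zero_add]
    by_cases h2 : a = F.st q
    · rw [if_pos h2, if_neg]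
      intro h3
      apply h1
      rw [h2, h3, F.st_st]
    · rw [if_neg h2]

private theorem T_row (p q b : I) :
    F.T p (F.st q) p b = if b = q then F.T p (F.st q) p q else 0 := by
  rw [T_apply, T_apply, F.st_st, if_pos rfl, if_pos rfl, if_pos rfl]
  by_cases h1 : b = q
  · rw [if_pos h1, if_pos h1, h1]
  · rw [if_neg h1, if_neg h1, zero_add]
    by_cases h2 : p = F.st q
    · rw [if_pos h2, if_neg]
      intro h3
      apply h1
      rw [h3, h2, F.st_st]
    · rw [if_neg h2]

private theorem T_ne [CharZero K] (p q : I) : F.T p (F.st q) p q ≠ 0 := by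
  have hc : ∀ a, F.c a ≠ 0 := by
    intro a
    rcases F.c_val a with h | h <;> rw [h] <;> simp
  rw [T_apply, F.st_st, if_pos rfl, if_pos rfl]
  by_cases h1 : p = F.st q
  · have h2 : q = F.st p := by rw [h1, F.st_st]
    rw [if_pos h1, if_pos h2, ← h1, ← two_mul]
    exact mul_ne_zero two_ne_zero (hc p)
  · rw [if_neg h1, add_zero]
    exact hc _

private theorem T_zero_col (p q a b : I) (h1 : b ≠ F.st p) (h2 : b ≠ F.st q) :
    F.T p q a b = 0 := by
  rw [T_apply, if_neg h1, if_neg h2]
  simp

private theorem T_zero_row (p q a b : I) (h1 : a ≠ p) (h2 : a ≠ q) : F.T p q a b = 0 := by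
  rw [T_apply, if_neg h1, if_neg h2, add_zero]

private theorem w3 [CharZero K] (p q y y' : I) (g : Matrix (I × I) (I × I) K)
    (hg : g * D2 (F.T p (F.st q)) = D2 (F.T p (F.st q)) * g) (h1 : y ≠ F.st p)
    (h2 : y ≠ q) (h3 : y' ≠ p) (h4 : y' ≠ F.st q) :
    g (p, y') (p, y) = g (q, y') (q, y) := by
  have h5 : (g * D2 (F.T p (F.st q))) (p, y') (q, y) =
      (D2 (F.T p (F.st q)) * g) (p, y') (q, y) := by rw [hg]
  have h0 : ∀ x z : I × I, D2 (F.T p (F.st q)) x z =
      F.T p (F.st q) x.1 z.1 * (if x.2 = z.2 then 1 else 0) +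
        (if x.1 = z.1 then 1 else 0) * F.T p (F.st q) x.2 z.2 := fun _ _ => rfl
  have hcol : ∀ z : I × I, D2 (F.T p (F.st q)) z (q, y) =
      if z = (p, y) then F.T p (F.st q) p q else 0 := by
    rintro ⟨z1, z2⟩
    rw [h0, T_zero_col F p (F.st q) z2 y h1 (by rw [F.st_st]; exact h2), mul_zero, add_zero,
      T_col]
    by_cases e1 : z1 = p
    · by_cases e2 : z2 = y
      · simp [e1, e2]
      · simp [e1, e2]
    · simp [e1]
  have hrow : ∀ z : I × I, D2 (F.T p (F.st q)) (p, y') z =
      if z = (q, y') then F.T p (F.st q) p q else 0 := by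
    rintro ⟨z1, z2⟩
    rw [h0, T_zero_row F p (F.st q) y' z2 h3 h4, mul_zero, add_zero, T_row]
    by_cases e1 : z1 = q
    · by_cases e2 : z2 = y'
      · simp [e1, e2]
      · simp [e1, e2, Ne.symm e2]
    · simp [e1]
  rw [Matrix.mul_apply, Matrix.mul_apply, Finset.sum_eq_single (p, y),
    Finset.sum_eq_single (q, y'), hcol, hrow, if_pos rfl, if_pos rfl, mul_comm] at h5
  · exact mul_left_cancel₀ (T_ne F p q) h5
  · intro z _ hz
    rw [hrow, if_neg hz, zero_mul]
  · intro h
    exact absurd (Finset.mem_univ _) h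
  · intro z _ hz
    rw [hcol, if_neg hz, mul_zero]
  · intro h
    exact absurd (Finset.mem_univ _) h

end

/-- WTS: weights. -/
theorem pf_WTS : T_WTS := by
  intro K _ _ V P _ _ _ _ F A hS g hg
  have hst : ∀ (p : V) (y : P), F.st (Sum.inl p) ≠ Sum.inr y := by
    intro p y h
    obtain ⟨q, hq⟩ := hS.st_V p
    rw [hq] at h
    exact absurd h (by simp)
  have hgd : ∀ p q : V, g * D2 (F.T (Sum.inl p) (F.st (Sum.inl q))) =
      D2 (F.T (Sum.inl p) (F.st (Sum.inl q))) * g := by
    intro p q
    obtain ⟨q', hq'⟩ := hS.st_V q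
    rw [hq']
    exact hg p q'
  have hw : ∀ (r : V) (x y : (V ⊕ P) × (V ⊕ P)), g x y ≠ 0 →
      wt F (Sum.inl r) x.1 + wt F (Sum.inl r) x.2 =
        wt F (Sum.inl r) y.1 + wt F (Sum.inl r) y.2 := fun r x y =>
    wcomm F (Sum.inl r) (hS.o_V r) g (hgd r r) x y
  -- values of the weights
  have wr : ∀ (r : V) (y : P), wt F (Sum.inl r) (Sum.inr y) = 0 := by
    intro r y
    unfold wt
    rw [if_neg (by simp), if_neg (fun h => hst r y h.symm), sub_zero]
  have ws : ∀ r : V, wt F (Sum.inl r) (Sum.inl r) = 1 := by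
    intro r
    unfold wt
    rw [if_pos rfl, if_neg (F.st_ne _).symm, sub_zero]
  have w1 : ∀ r a : V, wt F (Sum.inl r) (Sum.inl a) = 1 → a = r := by
    intro r a h
    unfold wt at h
    by_contra hne
    rw [if_neg (fun h0 => hne (Sum.inl_injective h0)), zero_sub] at h
    by_cases h2 : (Sum.inl a : V ⊕ P) = F.st (Sum.inl r)
    · rw [if_pos h2] at h
      have h3 : (2 : K) = 0 := by linear_combination -h
      exact two_ne_zero h3
    · rw [if_neg h2, neg_zero] at h
      exact zero_ne_one h
  have wle : ∀ r a : V, wt F (Sum.inl r) (Sum.inl a) ≠ 2 := by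
    intro r a h
    unfold wt at h
    by_cases h1 : (Sum.inl a : V ⊕ P) = Sum.inl r
    · have h2 : (Sum.inl a : V ⊕ P) ≠ F.st (Sum.inl r) := by
        rw [h1]
        exact (F.st_ne _).symm
      rw [if_pos h1, if_neg h2, sub_zero] at h
      have h3 : (1 : K) = 0 := by linear_combination -h
      exact one_ne_zero h3
    · rw [if_neg h1] at h
      by_cases h2 : (Sum.inl a : V ⊕ P) = F.st (Sum.inl r)
      · rw [if_pos h2] at h
        have h3 : (3 : K) = 0 := by linear_combination -h
        exact three_ne_zero h3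
      · rw [if_neg h2, sub_zero] at h
        exact two_ne_zero h.symm
  have wst : ∀ (r : V) (a : V ⊕ P), wt F (Sum.inl r) (F.st a) = -wt F (Sum.inl r) a := by
    intro r a
    unfold wt
    have e1 : (F.st a = Sum.inl r) = (a = F.st (Sum.inl r)) := propext (F.st_eq_iff a _)
    have e2 : (F.st a = F.st (Sum.inl r)) = (a = Sum.inl r) :=
      propext ⟨fun h => F.st_inj h, fun h => by rw [h]⟩
    simp only [e1, e2]
    ring
  have wne : ∀ r a : V, a ≠ r → (Sum.inl a : V ⊕ P) ≠ F.st (Sum.inl r) →
      wt F (Sum.inl r) (Sum.inl a) = 0 := by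
    intro r a h1 h2
    unfold wt
    rw [if_neg (fun h0 => h1 (Sum.inl_injective h0)), if_neg h2, sub_zero]
  refine ⟨?_, ?_, ?_⟩
  · rintro ⟨x1, x2⟩ p y hxy
    have hy : ∀ r : V, wt F (Sum.inl r) x1 + wt F (Sum.inl r) x2 =
        wt F (Sum.inl r) (Sum.inl p) := by
      intro r
      have h := hw r _ _ hxy
      change wt F (Sum.inl r) x1 + wt F (Sum.inl r) x2 =
        wt F (Sum.inl r) (Sum.inl p) + wt F (Sum.inl r) (Sum.inr y) at h
      rw [wr, add_zero] at h
      exact h
    rcases x1 with a | b
    · rcases x2 with a' | b'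
      · exfalso
        by_cases h1 : a' = a
        · have h2 := hy a
          rw [h1, ws] at h2
          apply wle a p
          rw [← h2]
          norm_num
        · by_cases h2 : (Sum.inl a' : V ⊕ P) = F.st (Sum.inl a)
          · have h3 := hy p
            rw [h2, wst, ws, add_neg_cancel] at h3
            exact zero_ne_one h3
          · have h3 := hy a
            rw [ws, wne a a' h1 h2, add_zero] at h3
            have h4 := w1 a p h3.symm
            have h5 := hy a'
            have h6 : (Sum.inl a : V ⊕ P) ≠ F.st (Sum.inl a') := by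
              intro h0
              apply h2
              rw [h0, F.st_st]
            rw [ws, wne a' a (Ne.symm h1) h6, zero_add] at h5
            have h7 := w1 a' p h5.symm
            exact h1 (h7.symm.trans h4)
      · refine ⟨b', Or.inl ?_⟩
        have h3 := hy a
        rw [ws, wr, add_zero] at h3
        rw [w1 a p h3.symm]
    · rcases x2 with a' | b'
      · refine ⟨b, Or.inr ?_⟩
        have h3 := hy a'
        rw [ws, wr, zero_add] at h3
        rw [w1 a' p h3.symm]
      · exfalso
        have h3 := hy p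
        rw [wr, wr, ws, add_zero] at h3
        exact zero_ne_one h3
  · rintro ⟨x1, x2⟩ y y' hxy
    have hy : ∀ r : V, wt F (Sum.inl r) x1 + wt F (Sum.inl r) x2 = 0 := by
      intro r
      have h := hw r _ _ hxy
      change wt F (Sum.inl r) x1 + wt F (Sum.inl r) x2 =
        wt F (Sum.inl r) (Sum.inr y) + wt F (Sum.inl r) (Sum.inr y') at h
      rw [wr, wr, add_zero] at h
      exact h
    rcases x1 with a | b
    · rcases x2 with a' | b'
      · exact Or.inr ⟨a, a', rfl⟩
      · exfalso
        have h3 := hy a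
        rw [ws, wr, add_zero] at h3
        exact one_ne_zero h3
    · rcases x2 with a' | b'
      · exfalso
        have h3 := hy a'
        rw [ws, wr, zero_add] at h3
        exact one_ne_zero h3
      · exact Or.inl ⟨b, b', rfl⟩
  · intro p q y y'
    exact w3 F (Sum.inl p) (Sum.inl q) (Sum.inr y) (Sum.inr y') g (hgd p q)
      (fun h => hst p y h.symm) (by simp) (by simp) (fun h => hst q y' h.symm)

end Pool.Agent.H7.NL
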